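import Pool.Agent.N905.EX.Loc
import Pool.Agent.TH933.CycCount2

/-! The linear forms and the number of the cycles of the 3x+1 map, with an explicit exponent. -/

set_option autoImplicit false

namespace Pool.Agent.N905.CY

open Finset Pool.Agent.H319R2 Pool.Agent.H547R3
open Pool.Agent.TH933.Cyc (form form_ge eq_zero_of_mem form_zero finite_of_bound AtMost exists_scale
  exists_line det_small log3_gt abs_mul_pos')

/-- **the sum of the linear forms over all cycles** -/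
theorem sum_forms_ex (η : ℝ) (hη : Pool.Agent.N905.EX.η0 < η) (hη1 : η < 1) : ∃ C : ℝ, 0 < C ∧ ∀ N : ℝ, 1 ≤ N →
    ∀ F : Finset (Finset ℤ), (∀ Z ∈ F, IsCycle Z ∧ ∀ x ∈ Z, N ≤ |(x : ℝ)|) →
      ∑ Z ∈ F, |(Z.card : ℝ) * Real.log 2 - odds Z * Real.log 3| ≤ C * N ^ (η - 1) := by
  classical
  have hη0 : 0 < η := Pool.Agent.N905.EX.eta0_pos.trans hη
  obtain ⟨A, hA, hsp⟩ := Pool.Agent.N905.EX.sparse_ex hη hη1
  have hρ1 : (2 : ℝ) ^ (η - 1) < 1 := Real.rpow_lt_one_of_one_lt_of_neg (by norm_num) (by linarith)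
  have hρ0 : (0 : ℝ) < 1 - 2 ^ (η - 1) := by linarith
  refine ⟨A * 2 ^ η / (1 - 2 ^ (η - 1)), by positivity, ?_⟩
  intro N hN F hF
  have hdisj : (F : Set (Finset ℤ)).PairwiseDisjoint id := by
    intro Z hZ Z' hZ' hne
    rw [Function.onFun, disjoint_left]
    intro y hy hy'
    exact hne ((hF Z hZ).1.eq_of_mem (hF Z' hZ').1 hy hy')
  have hrec := Pool.Agent.H319R2.G.recip_of_sparse η A hη0 hη1 hA.le
    (Function.periodicPts (Pool.Agent.TH930.EBQ.T 1)) (by
      intro X hX G hG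
      have := hsp 1 odd_one _ (Pool.Agent.H319R2.G.tame_periodic _) 0 X hX G (by
        intro x hx; rw [sub_zero]; exact hG x hx)
      rwa [Int.cast_one, abs_one, Real.one_rpow, mul_one] at this) N hN (F.biUnion id) (by
    intro x hx
    rw [mem_biUnion] at hx
    obtain ⟨Z, hZ, hxZ⟩ := hx
    exact ⟨(hF Z hZ).1.periodic hxZ, (hF Z hZ).2 x hxZ⟩)
  rw [sum_biUnion hdisj] at hrec
  have hterm : ∀ Z ∈ F, |(Z.card : ℝ) * Real.log 2 - odds Z * Real.log 3| ≤ ∑ x ∈ id Z, 1 / |(x : ℝ)| := by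
    intro Z hZ
    have h0 : (0 : ℤ) ∉ Z := by
      intro h
      have := (hF Z hZ).2 0 h
      simp at this
      linarith
    have h1 := (hF Z hZ).1.form_le h0
    have h2 : 0 ≤ ∑ x ∈ Z, 1 / |(x : ℝ)| := sum_nonneg (fun _ _ => by positivity)
    simp only [id]
    exact h1.trans (by linarith)
  exact (sum_le_sum hterm).trans hrec

/-- one dyadic level -/
theorem level (η : ℝ) (hη : Pool.Agent.N905.EX.η0 < η) (hη0 : 0 < η) (hη1 : η < 1) : ∃ K : ℝ, 0 < K ∧ ∀ lam : ℝ, 0 < lam →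
    ∀ F : Finset (Finset ℤ), (∀ Z ∈ F, IsCycle Z ∧ lam ≤ form Z ∧ form Z < 2 * lam) →
      (F.card : ℝ) ≤ K * lam ^ (-η) := by
  classical
  obtain ⟨C, hC0, hC⟩ := sum_forms_ex η hη hη1
  refine ⟨8 * C + 1, by positivity, ?_⟩
  intro lam hlam F hF
  have hsub : F ⊆ insert {0} (F.filter fun Z => (0 : ℤ) ∉ Z) := by
    intro Z hZ
    rw [mem_insert, mem_filter]
    by_cases h : (0 : ℤ) ∈ Z
    · left; exact eq_zero_of_mem (hF Z hZ).1 h
    · right; exact ⟨hZ, h⟩
  set F' := F.filter fun Z => (0 : ℤ) ∉ Z with hF'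
  set N : ℝ := max 1 (1 / (8 * lam)) with hN
  have hN1 : 1 ≤ N := le_max_left _ _
  have hN2 : 1 / (8 * lam) ≤ N := le_max_right _ _
  have hpow0 : 0 < lam ^ (-η) := Real.rpow_pos_of_pos hlam _
  have hcard' : (F'.card : ℝ) ≤ 8 * C * lam ^ (-η) := by
    have h1 := hC N hN1 F' (by
      intro Z hZ
      rw [hF', mem_filter] at hZ
      refine ⟨(hF Z hZ.1).1, ?_⟩
      intro x hx
      have hx0 : x ≠ 0 := fun h => hZ.2 (h ▸ hx)
      have hx1 : (1 : ℝ) ≤ |(x : ℝ)| := by exact_mod_cast Int.one_le_abs hx0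
      refine max_le hx1 ?_
      have h2 := (form_ge (hF Z hZ.1).1 hZ.2 hx).trans_lt (hF Z hZ.1).2.2
      rw [div_le_iff₀ (by positivity)]
      rw [div_lt_iff₀ (by positivity)] at h2
      linarith)
    have h2 : (F'.card : ℝ) * lam ≤ ∑ Z ∈ F', |(Z.card : ℝ) * Real.log 2 - odds Z * Real.log 3| := by
      rw [← nsmul_eq_mul]
      refine Finset.card_nsmul_le_sum _ _ _ ?_
      intro Z hZ
      rw [hF', mem_filter] at hZ
      exact (hF Z hZ.1).2.1
    have h3 : N ^ (η - 1) ≤ 8 * lam ^ (1 - η) := by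
      calc N ^ (η - 1) ≤ (1 / (8 * lam)) ^ (η - 1) :=
            Real.rpow_le_rpow_of_nonpos (by positivity) hN2 (by linarith)
        _ = (8 * lam) ^ (1 - η) := by
            rw [one_div, Real.inv_rpow (by positivity), ← Real.rpow_neg (by positivity)]
            congr 1; ring
        _ = 8 ^ (1 - η) * lam ^ (1 - η) := Real.mul_rpow (by norm_num) hlam.le
        _ ≤ 8 * lam ^ (1 - η) := by
            have : (8 : ℝ) ^ (1 - η) ≤ 8 ^ (1 : ℝ) :=
              Real.rpow_le_rpow_of_exponent_le (by norm_num) (by linarith)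
            rw [Real.rpow_one] at this
            exact mul_le_mul_of_nonneg_right this (Real.rpow_nonneg hlam.le _)
    have h4 : (F'.card : ℝ) * lam ≤ 8 * C * lam ^ (-η) * lam := by
      have h5 : lam ^ (-η) * lam = lam ^ (1 - η) := by
        rw [← Real.rpow_add_one hlam.ne']
        congr 1; ring
      calc (F'.card : ℝ) * lam ≤ C * N ^ (η - 1) := h2.trans h1
        _ ≤ C * (8 * lam ^ (1 - η)) := mul_le_mul_of_nonneg_left h3 hC0.le
        _ = 8 * C * lam ^ (-η) * lam := by rw [← h5]; ring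
    exact le_of_mul_le_mul_right h4 hlam
  by_cases hz : ({0} : Finset ℤ) ∈ F
  · have h1 := (hF _ hz).2.1
    rw [form_zero] at h1
    have h2 : lam ≤ 1 := by
      have := Real.log_two_lt_d9
      linarith
    have h3 : 1 ≤ lam ^ (-η) := Real.one_le_rpow_of_pos_of_le_one_of_nonpos hlam h2 (by linarith)
    have h4 : (F.card : ℝ) ≤ F'.card + 1 := by
      have := (card_le_card hsub).trans (card_insert_le _ _)
      exact_mod_cast this
    linarith
  · have h4 : (F.card : ℝ) ≤ F'.card := by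
      have : F ⊆ F' := by
        intro Z hZ
        rcases mem_insert.1 (hsub hZ) with h | h
        · exact absurd (h ▸ hZ) hz
        · exact h
      exact_mod_cast card_le_card this
    linarith

/-- **the number of cycles with a large linear form** -/
theorem count_form (η : ℝ) (hη : Pool.Agent.N905.EX.η0 < η) (hη0 : 0 < η) (hη1 : η < 1) : ∃ K : ℝ, 0 < K ∧ ∀ lam : ℝ, 0 < lam →
    ∀ F : Finset (Finset ℤ), (∀ Z ∈ F, IsCycle Z ∧ lam ≤ form Z) → (F.card : ℝ) ≤ K * lam ^ (-η) := by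
  classical
  obtain ⟨K, hK0, hK⟩ := level η hη hη0 hη1
  have h2 : (2 : ℝ) ^ (-η) < 1 := Real.rpow_lt_one_of_one_lt_of_neg (by norm_num) (by linarith)
  have h20 : (0 : ℝ) < 2 ^ (-η) := Real.rpow_pos_of_pos (by norm_num) _
  set K' := K / (1 - 2 ^ (-η)) with hK'
  have hK'0 : 0 < K' := div_pos hK0 (by linarith)
  have hKK : K + K' * 2 ^ (-η) = K' := by
    have : K' * (1 - 2 ^ (-η)) = K := by rw [hK']; exact div_mul_cancel₀ _ (by linarith)
    linarith
  have key : ∀ n : ℕ, ∀ lam : ℝ, 0 < lam → ∀ F : Finset (Finset ℤ),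
      (∀ Z ∈ F, IsCycle Z ∧ lam ≤ form Z ∧ form Z < 2 ^ n * lam) → (F.card : ℝ) ≤ K' * lam ^ (-η) := by
    intro n
    induction n with
    | zero =>
      intro lam hlam F hF
      have : F = ∅ := by
        rw [Finset.eq_empty_iff_forall_notMem]
        intro Z hZ
        have := hF Z hZ
        linarith [this.2.1, this.2.2]
      rw [this]
      simp only [card_empty, Nat.cast_zero]
      positivity
    | succ n ih =>
      intro lam hlam F hF
      have e := Finset.card_filter_add_card_filter_not (s := F) (fun Z => form Z < 2 * lam)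
      have h1 := hK lam hlam (F.filter fun Z => form Z < 2 * lam) (by
        intro Z hZ
        rw [mem_filter] at hZ
        exact ⟨(hF Z hZ.1).1, (hF Z hZ.1).2.1, hZ.2⟩)
      have h3 := ih (2 * lam) (by positivity) (F.filter fun Z => ¬ form Z < 2 * lam) (by
        intro Z hZ
        rw [mem_filter] at hZ
        refine ⟨(hF Z hZ.1).1, not_lt.1 hZ.2, ?_⟩
        have := (hF Z hZ.1).2.2
        rw [pow_succ] at this
        linarith)
      rw [Real.mul_rpow (by norm_num) hlam.le] at h3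
      have h4 : (F.card : ℝ) = ((F.filter fun Z => form Z < 2 * lam).card : ℝ) +
          ((F.filter fun Z => ¬ form Z < 2 * lam).card : ℝ) := by exact_mod_cast e.symm
      rw [h4]
      calc _ ≤ K * lam ^ (-η) + K' * (2 ^ (-η) * lam ^ (-η)) := add_le_add h1 h3
        _ = (K + K' * 2 ^ (-η)) * lam ^ (-η) := by ring
        _ = K' * lam ^ (-η) := by rw [hKK]
  refine ⟨K', hK'0, ?_⟩
  intro lam hlam F hF
  obtain ⟨n, hn⟩ : ∃ n : ℕ, ∀ Z ∈ F, form Z < 2 ^ n * lam := by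
    obtain ⟨n, hn⟩ := pow_unbounded_of_one_lt ((∑ Z ∈ F, form Z) / lam) (by norm_num : (1 : ℝ) < 2)
    refine ⟨n, ?_⟩
    intro Z hZ
    have h1 : form Z ≤ ∑ Z ∈ F, form Z :=
      Finset.single_le_sum (f := form) (fun Z _ => abs_nonneg _) hZ
    rw [div_lt_iff₀ hlam] at hn
    linarith
  exact key n lam hlam F (fun Z hZ => ⟨(hF Z hZ).1, (hF Z hZ).2, hn Z hZ⟩)

theorem main (η : ℝ) (hη : Pool.Agent.N905.EX.η0 < η) (hη0 : 0 < η) (hη1 : η < 1) : ∃ C : ℝ,
    (∀ lam : ℝ, 0 < lam → AtMost {Z | IsCycle Z ∧ lam ≤ form Z} (C * lam ^ (-η))) ∧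
    (∃ᶠ P : ℕ in Filter.atTop, AtMost {Z | IsCycle Z ∧ Z.card ≤ P} (C * (P : ℝ) ^ η) ∧
      ∀ a : ℕ, ∃ p o : ℕ, AtMost {Z | IsCycle Z ∧ a ≤ Z.card ∧ Z.card ≤ a + P ∧
        ¬ (Z.card = p ∧ odds Z = o)} (C * (P : ℝ) ^ η)) ∧
    (∀ P : ℕ, 1 ≤ P → ∃ (q : ℕ) (r : ℤ), 1 ≤ q ∧ q ≤ P ∧ IsCoprime (q : ℤ) r ∧
      AtMost {Z | IsCycle Z ∧ Z.card ≤ P ∧ (q : ℤ) * odds Z ≠ r * Z.card} (C * (P : ℝ) ^ η) ∧
      ∀ a : ℕ, ∃ c : ℤ, AtMost {Z | IsCycle Z ∧ a ≤ Z.card ∧ Z.card ≤ a + P ∧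
        (q : ℤ) * odds Z - r * Z.card ≠ c} (C * (P : ℝ) ^ η)) := by
  classical
  obtain ⟨K, hK0, hK⟩ := count_form η hη hη0 hη1
  have hA : ∀ lam : ℝ, 0 < lam → AtMost {Z | IsCycle Z ∧ lam ≤ form Z} (K * lam ^ (-η)) :=
    fun lam hlam => finite_of_bound (hK lam hlam)
  -- the basic scale
  have hB : ∀ P : ℕ, 1 ≤ P → AtMost {Z | IsCycle Z ∧ 1 / (4 * ((P : ℝ) + 1)) ≤ form Z} (8 * K * (P : ℝ) ^ η) := by
    intro P hP
    have hP1 : (1 : ℝ) ≤ P := by exact_mod_cast hP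
    refine (hA (1 / (4 * ((P : ℝ) + 1))) (by positivity)).mono subset_rfl ?_
    have h1 : (1 / (4 * ((P : ℝ) + 1))) ^ (-η) = (4 * ((P : ℝ) + 1)) ^ η := by
      rw [one_div, Real.inv_rpow (by positivity), ← Real.rpow_neg (by positivity), neg_neg]
    rw [h1]
    have h2 : (4 * ((P : ℝ) + 1)) ^ η ≤ (8 * (P : ℝ)) ^ η :=
      Real.rpow_le_rpow (by positivity) (by linarith) hη0.le
    rw [Real.mul_rpow (x := 8) (by norm_num) (by positivity)] at h2
    have h3 : (8 : ℝ) ^ η ≤ 8 ^ (1 : ℝ) := Real.rpow_le_rpow_of_exponent_le (by norm_num) hη1.le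
    rw [Real.rpow_one] at h3
    have h4 : 0 ≤ (P : ℝ) ^ η := Real.rpow_nonneg (by positivity) _
    have h5 : (8 : ℝ) ^ η * (P : ℝ) ^ η ≤ 8 * (P : ℝ) ^ η := mul_le_mul_of_nonneg_right h3 h4
    nlinarith
  -- the difference of two cycles with small forms
  have hdiff : ∀ (P a : ℕ) (Z Z₀ : Finset ℤ), form Z < 1 / (4 * ((P : ℝ) + 1)) →
      form Z₀ < 1 / (4 * ((P : ℝ) + 1)) → a ≤ Z.card → Z.card ≤ a + P → a ≤ Z₀.card → Z₀.card ≤ a + P →
      |(Z.card : ℤ) - Z₀.card| ≤ P ∧ |(((Z.card : ℤ) - Z₀.card : ℤ) : ℝ) * Real.log 2 -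
        (((odds Z : ℤ) - odds Z₀ : ℤ) : ℝ) * Real.log 3| < 1 / (2 * ((P : ℝ) + 1)) := by
    intro P a Z Z₀ h h0 h1 h2 h3 h4
    refine ⟨by rw [abs_le]; omega, ?_⟩
    have e : (((Z.card : ℤ) - Z₀.card : ℤ) : ℝ) * Real.log 2 -
        (((odds Z : ℤ) - odds Z₀ : ℤ) : ℝ) * Real.log 3 =
        ((Z.card : ℝ) * Real.log 2 - odds Z * Real.log 3) -
        ((Z₀.card : ℝ) * Real.log 2 - odds Z₀ * Real.log 3) := by push_cast; ring
    rw [e]
    refine (abs_sub _ _).trans_lt ?_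
    unfold form at h h0
    have e2 : (1 : ℝ) / (2 * ((P : ℝ) + 1)) = 1 / (4 * ((P : ℝ) + 1)) + 1 / (4 * ((P : ℝ) + 1)) := by
      field_simp; norm_num
    rw [e2]
    linarith
  refine ⟨8 * K, ?_, ?_, ?_⟩
  · intro lam hlam
    refine (hA lam hlam).mono subset_rfl ?_
    have : 0 ≤ lam ^ (-η) := Real.rpow_nonneg hlam.le _
    nlinarith
  · rw [Filter.frequently_atTop]
    intro n
    obtain ⟨H, hH, hsc⟩ := exists_scale (n + 1)
    refine ⟨H - 1, by omega, ?_, ?_⟩
    · refine (hB (H - 1) (by omega)).mono ?_ le_rfl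
      rintro Z ⟨hZ, hcard⟩
      refine ⟨hZ, ?_⟩
      have h1 := hsc Z.card (odds Z) hZ.card_pos (by omega)
      have h2 : (((H - 1 : ℕ) : ℝ) + 1) = H := by
        have : ((H - 1 : ℕ) + 1) = H := by omega
        exact_mod_cast this
      rw [h2]
      unfold form
      refine le_trans ?_ h1
      have hH0 : (0 : ℝ) < H := by
        have : 0 < H := by omega
        exact_mod_cast this
      apply one_div_le_one_div_of_le (by positivity)
      linarith
    · intro a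
      have h2 : (((H - 1 : ℕ) : ℝ) + 1) = H := by
        have : ((H - 1 : ℕ) + 1) = H := by omega
        exact_mod_cast this
      by_cases hex : ∃ Z₀ : Finset ℤ, IsCycle Z₀ ∧ a ≤ Z₀.card ∧ Z₀.card ≤ a + (H - 1) ∧
          form Z₀ < 1 / (4 * (((H - 1 : ℕ) : ℝ) + 1))
      · obtain ⟨Z₀, hZ₀, ha1, ha2, hf⟩ := hex
        refine ⟨Z₀.card, odds Z₀, ?_⟩
        refine (hB (H - 1) (by omega)).mono ?_ le_rfl
        rintro Z ⟨hZ, hc1, hc2, hne⟩
        refine ⟨hZ, ?_⟩
        by_contra hlt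
        rw [not_le] at hlt
        apply hne
        obtain ⟨hd1, hd2⟩ := hdiff (H - 1) a Z Z₀ hlt hf hc1 hc2 ha1 ha2
        rw [h2] at hd2
        have hH1 : (1 : ℝ) ≤ H := by
          have : 1 ≤ H := by omega
          exact_mod_cast this
        -- the difference of the numbers of elements is zero
        have hd0 : (Z.card : ℤ) - Z₀.card = 0 := by
          by_contra hne0
          have habs := abs_le.1 hd1
          rcases lt_or_gt_of_ne hne0 with hlt0 | hgt0
          · have h3 := hsc ((Z.card : ℤ) - Z₀.card).natAbs (-((odds Z : ℤ) - odds Z₀)) (by omega) (by omega)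
            have h4 : ((((Z.card : ℤ) - Z₀.card).natAbs : ℕ) : ℝ) = -(((Z.card : ℤ) - Z₀.card : ℤ) : ℝ) := by
              rw [Nat.cast_natAbs, abs_of_neg hlt0, Int.cast_neg]
            have h5 : (((((Z.card : ℤ) - Z₀.card).natAbs : ℕ) : ℝ) * Real.log 2 -
                ((-((odds Z : ℤ) - odds Z₀) : ℤ) : ℝ) * Real.log 3) =
                -((((Z.card : ℤ) - Z₀.card : ℤ) : ℝ) * Real.log 2 -
                  (((odds Z : ℤ) - odds Z₀ : ℤ) : ℝ) * Real.log 3) := by
              rw [h4, Int.cast_neg]; ring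
            rw [h5, abs_neg] at h3
            linarith
          · have h3 := hsc ((Z.card : ℤ) - Z₀.card).natAbs ((odds Z : ℤ) - odds Z₀) (by omega) (by omega)
            have h4 : ((((Z.card : ℤ) - Z₀.card).natAbs : ℕ) : ℝ) = (((Z.card : ℤ) - Z₀.card : ℤ) : ℝ) := by
              rw [Nat.cast_natAbs, abs_of_pos hgt0]
            rw [h4] at h3
            linarith
        rw [hd0] at hd2
        have h4 : |(((odds Z : ℤ) - odds Z₀ : ℤ) : ℝ)| * Real.log 3 ≤ 1 / (2 * H) := by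
          rw [abs_mul_pos' _ (show (0 : ℝ) < Real.log 3 by linarith [log3_gt])]
          rw [Int.cast_zero, zero_mul, zero_sub, abs_neg] at hd2
          exact hd2.le
        have h5 : (1 : ℝ) / (2 * H) ≤ 1 / 2 := by
          apply one_div_le_one_div_of_le (by norm_num)
          linarith
        have h6 : |(((odds Z : ℤ) - odds Z₀ : ℤ) : ℝ)| < 1 := by
          have := abs_nonneg (((odds Z : ℤ) - odds Z₀ : ℤ) : ℝ)
          have := log3_gt
          nlinarith
        have h7 : |(odds Z : ℤ) - odds Z₀| < 1 := by exact_mod_cast h6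
        rw [abs_lt] at h7
        constructor <;> omega
      · push Not at hex
        refine ⟨0, 0, ?_⟩
        refine (hB (H - 1) (by omega)).mono ?_ le_rfl
        rintro Z ⟨hZ, hc1, hc2, -⟩
        exact ⟨hZ, hex Z hZ hc1 hc2⟩
  · intro P hP
    obtain ⟨q, r, hq1, hqP, hcop, hline⟩ := exists_line P hP
    refine ⟨q, r, hq1, hqP, hcop, ?_, ?_⟩
    · refine (hB P hP).mono ?_ le_rfl
      rintro Z ⟨hZ, hcard, hne⟩
      refine ⟨hZ, ?_⟩
      by_contra hlt
      rw [not_le] at hlt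
      apply hne
      refine hline (Z.card : ℤ) (odds Z : ℤ) (by rw [abs_of_nonneg (by positivity)]; exact_mod_cast hcard) ?_
      unfold form at hlt
      push_cast
      refine hlt.le.trans ?_
      apply one_div_le_one_div_of_le (by positivity)
      have : (0 : ℝ) ≤ P := by positivity
      linarith
    · intro a
      by_cases hex : ∃ Z₀ : Finset ℤ, IsCycle Z₀ ∧ a ≤ Z₀.card ∧ Z₀.card ≤ a + P ∧
          form Z₀ < 1 / (4 * ((P : ℝ) + 1))
      · obtain ⟨Z₀, hZ₀, ha1, ha2, hf⟩ := hex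
        refine ⟨(q : ℤ) * odds Z₀ - r * Z₀.card, ?_⟩
        refine (hB P hP).mono ?_ le_rfl
        rintro Z ⟨hZ, hc1, hc2, hne⟩
        refine ⟨hZ, ?_⟩
        by_contra hlt
        rw [not_le] at hlt
        apply hne
        obtain ⟨hd1, hd2⟩ := hdiff P a Z Z₀ hlt hf hc1 hc2 ha1 ha2
        have := hline _ _ hd1 hd2.le
        linarith
      · push Not at hex
        refine ⟨0, ?_⟩
        refine (hB P hP).mono ?_ le_rfl
        rintro Z ⟨hZ, hc1, hc2, -⟩
        exact ⟨hZ, hex Z hZ hc1 hc2⟩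


end Pool.Agent.N905.CY
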